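import Pool.Agent.Y572.GP.LIP
import Pool.Agent.Y572.GP.LOW
import Pool.Agent.Y572.GP.BUMP
import Pool.Agent.Y572.GP.BUMP2
import Pool.Agent.Y572.GP.DEL
import Pool.Agent.Y572.GP.Asm2

set_option autoImplicit false

/-!
# MP_8e91ed_lc: no fully polynomial approximation scheme, for almost Hölder continuous potentials

For every modulus of continuity `w` which is weaker than all Hölder moduli, and every countable
set `𝒜` of deterministic oracle algorithms, there is a repulsive potential of finite range with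
the modulus `w` for which no algorithm of `𝒜` approximates the partition function with a number
of questions polynomial in `1 / ε`.
-/

namespace Pool.Agent.Results.MP_8e91ed_lc.AlmostHoelderPotentials

open Pool.Agent.Y572.GP Filter Topology

theorem result (d : ℕ) (hd : 1 ≤ d) (L : ℝ) (𝒜 : Set (Alg d)) (h𝒜 : 𝒜.Countable)
    (w : ℝ → ℝ) (hw : ∀ s t : ℝ, 0 < s → s ≤ t → w s ≤ w t ∧ w t / t ≤ w s / s)
    (hw' : ∀ a : ℝ, 0 < a → Tendsto (fun t : ℝ => w t / t ^ a) (𝓝[>] 0) atTop) :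
    ∃ (φ : E d → ℝ) (O : (Fin d → ℚ) → ℕ → ℚ), Weak L φ O ∧
      (∀ x y, x ≠ y → |φ x - φ y| ≤ w ‖x - y‖) ∧
      ∀ A ∈ 𝒜, ∀ n : ℕ, 1 ≤ n → ∀ lam : ℚ, 0 < lam → ∀ K : ℕ,
        ¬ ApproximatesIn A O n (Z φ (box d n) lam) (fun ε => K * (1 / (ε : ℝ)) ^ K) :=
  (main_all t_LIP t_LOW t_BUMP t_BUMP2 t_DEL d hd L 𝒜 h𝒜).2.1 w hw hw'

end Pool.Agent.Results.MP_8e91ed_lc.AlmostHoelderPotentials
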