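import Pool.Agent.Y572.GP.LIP
import Pool.Agent.Y572.GP.LOW
import Pool.Agent.Y572.GP.BUMP
import Pool.Agent.Y572.GP.BUMP2
import Pool.Agent.Y572.GP.DEL
import Pool.Agent.Y572.GP.Asm2

set_option autoImplicit false

/-!
# MP_8e91ed_lc: a lower bound for approximation schemes, for Hölder continuous potentials

For every `0 < α ≤ 1` and every countable set `𝒜` of deterministic oracle algorithms there is a
repulsive potential of finite range, Hölder continuous with exponent `α`, for which no algorithm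
of `𝒜` approximates the partition function with `K (1 / ε) ^ β` questions, `β < d / α`.
-/

namespace Pool.Agent.Results.MP_8e91ed_lc.HoelderPotentials

open Pool.Agent.Y572.GP

theorem result (d : ℕ) (hd : 1 ≤ d) (L : ℝ) (𝒜 : Set (Alg d)) (h𝒜 : 𝒜.Countable)
    (α : ℝ) (hα0 : 0 < α) (hα1 : α ≤ 1) :
    ∃ (φ : E d → ℝ) (O : (Fin d → ℚ) → ℕ → ℚ), Weak L φ O ∧
      (∀ x y, |φ x - φ y| ≤ ‖x - y‖ ^ α) ∧
      ∀ A ∈ 𝒜, ∀ n : ℕ, 1 ≤ n → ∀ lam : ℚ, 0 < lam → ∀ (K : ℕ) (β : ℝ), β < d / α →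
        ¬ ApproximatesIn A O n (Z φ (box d n) lam) (fun ε => K * (1 / (ε : ℝ)) ^ β) :=
  (main_all t_LIP t_LOW t_BUMP t_BUMP2 t_DEL d hd L 𝒜 h𝒜).2.2 α hα0 hα1

end Pool.Agent.Results.MP_8e91ed_lc.HoelderPotentials
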