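import Pool.Agent.Y572.GP.LIP
import Pool.Agent.Y572.GP.LOW
import Pool.Agent.Y572.GP.BUMP
import Pool.Agent.Y572.GP.DEL
import Pool.Agent.Y572.GP.Asm2

set_option autoImplicit false

/-!
# MP_8e91ed_lc: no deterministic approximation of repulsive Gibbs partition functions

In every dimension `d ≥ 1` and for every countable set `𝒜` of deterministic oracle algorithms
there is a continuous repulsive potential of finite range for which no algorithm of `𝒜`
approximates the partition function, in any number of steps.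
-/

namespace Pool.Agent.Results.MP_8e91ed_lc.NoApproximationScheme

open Pool.Agent.Y572.GP

theorem result (d : ℕ) (hd : 1 ≤ d) (L : ℝ) (𝒜 : Set (Alg d)) (h𝒜 : 𝒜.Countable) :
    ∃ (φ : E d → ℝ) (O : (Fin d → ℚ) → ℕ → ℚ), Weak L φ O ∧
      ∀ A ∈ 𝒜, ∀ n : ℕ, 1 ≤ n → ∀ lam : ℚ, 0 < lam →
        ¬ Approximates A O n (Z φ (box d n) lam) := by
  obtain ⟨φ, h1, h2, h3, h4, h5, h6, O, h7, h8⟩ :=
    main_of t_LIP t_LOW t_BUMP t_DEL hd L 𝒜 h𝒜
  exact ⟨φ, O, ⟨h1, h2, h3, h4, h5, h6, h7⟩, h8⟩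

end Pool.Agent.Results.MP_8e91ed_lc.NoApproximationScheme
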